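import Pool.Agent.H59R3.M17.E6
import Pool.Agent.H59R3.M17.Count

set_option autoImplicit false

open Set Filter Topology UpperHalfPlane
open Pool.Agent.H59R3.M17

namespace Pool.Agent.Results.MP_5f72fe_nt.WeakFormFails

/-- **Disproof of Q1.** Odd Hecke–Maass cusp forms of level one exist, and for each of them all
quadratic twists have vanishing central value; so no positive proportion of them is nonzero. -/
theorem result :
    (∃ (f : ℍ → ℂ) (lam : ℝ) (a : ℕ → ℂ), OddMaass f lam a) ∧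
    ∀ (f : ℍ → ℂ) (lam : ℝ) (a : ℕ → ℂ), OddMaass f lam a →
      (∀ c : QChar, IsCentralValue (fun n => a n * c.χ n) 0) ∧
      (∀ (c : QChar) (v : ℂ), IsCentralValue (fun n => a n * c.χ n) v → v = 0) ∧
      (∀ x : ℝ, Nnonvan a x = 0) ∧
      Filter.liminf (fun x : ℝ => (Nnonvan a x : ℝ) / x) atTop = 0 ∧
      ¬ ∃ c : ℝ, 0 < c ∧ ∀ᶠ x : ℝ in atTop, c * x ≤ (Nnonvan a x : ℝ) := by
  refine ⟨exists_oddMaass, fun f lam a h => ?_⟩
  have h1 : ∀ c : QChar, IsCentralValue (fun n => a n * c.χ n) 0 := by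
    intro c
    have : NeZero c.q := ⟨c.pos.ne'⟩
    exact h.central c.prim c.sq
  have h2 : ∀ (c : QChar) (v : ℂ), IsCentralValue (fun n => a n * c.χ n) v → v = 0 :=
    fun c v hv => hv.unique (h1 c)
  have h3 : ∀ x : ℝ, Nnonvan a x = 0 := by
    intro x
    have : {c : QChar | (c.q : ℝ) < x ∧ ∃ v : ℂ, v ≠ 0 ∧ IsCentralValue (fun n => a n * c.χ n) v} = ∅ := by
      ext c
      simp only [mem_setOf_eq, mem_empty_iff_false, iff_false, not_and, not_exists]
      intro _ v hv hc
      exact hv (h2 c v hc)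
    rw [Nnonvan, this, Set.ncard_empty]
  refine ⟨h1, h2, h3, ?_, ?_⟩
  · simp only [h3, Nat.cast_zero, zero_div]
    exact Filter.liminf_const 0
  · rintro ⟨c, hc, hev⟩
    obtain ⟨x, hx1, hx2⟩ := (hev.and (eventually_gt_atTop (0 : ℝ))).exists
    rw [h3, Nat.cast_zero] at hx1
    have := mul_pos hc hx2
    linarith

end Pool.Agent.Results.MP_5f72fe_nt.WeakFormFails
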